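import Mathlib
import Pool.Agent.D0H90.SM.Stm

/-! Project SM, module BASE: evaluation, conjugation, Taylor expansion of tuples of forms. -/

set_option autoImplicit false

open Finset

namespace Pool.Agent.D0H81.SM

open Pool.Agent.D0H90.SM
open MvPolynomial Matrix

universe u v

variable {n d : ℕ}

theorem mon_map {R : Type u} {S : Type v} [CommRing R] [CommRing S] (φ : R →+* S) (m : Ex n d)
    (x : Fin n → R) : mon m (fun l => φ (x l)) = φ (mon m x) := by
  unfold mon
  rw [map_prod]
  exact prod_congr rfl fun l _ => (map_pow φ _ _).symm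

theorem ev_map {R : Type u} {S : Type v} [CommRing R] [CommRing S] (φ : R →+* S) (c : Cf n d → R)
    (x : Fin n → R) : ev (fun a => φ (c a)) (fun l => φ (x l)) = fun i => φ (ev c x i) := by
  funext i
  unfold ev
  rw [map_sum]
  refine sum_congr rfl fun m _ => ?_
  rw [mon_map, map_mul]

theorem dmon_map {R : Type u} {S : Type v} [CommRing R] [CommRing S] (φ : R →+* S) (m : Ex n d)
    (x y : Fin n → R) : dmon m (fun l => φ (x l)) (fun l => φ (y l)) = φ (dmon m x y) := by
  unfold dmon
  rw [map_sum]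
  refine sum_congr rfl fun l _ => ?_
  rw [map_mul, map_mul, map_natCast, map_prod]
  congr 1
  exact prod_congr rfl fun s _ => (map_pow φ _ _).symm

theorem dev_map {R : Type u} {S : Type v} [CommRing R] [CommRing S] (φ : R →+* S) (c : Cf n d → R)
    (x y : Fin n → R) : dev (fun a => φ (c a)) (fun l => φ (x l)) (fun l => φ (y l)) =
      fun i => φ (dev c x y i) := by
  funext i
  unfold dev
  rw [map_sum]
  refine sum_congr rfl fun m _ => ?_
  rw [dmon_map, map_mul]

theorem toF_inj : Function.Injective (toF : Ex n d → (Fin n →₀ ℕ)) := by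
  intro m m' h
  unfold toF at h
  have h2 := Finsupp.equivFunOnFinite.symm.injective h
  apply Subtype.ext
  funext l
  apply Fin.ext
  exact congrFun h2 l

theorem toF_apply (m : Ex n d) (l : Fin n) : toF m l = (m.1 l : ℕ) := by
  unfold toF
  rfl

theorem toF_surj (s : Fin n →₀ ℕ) (h : ∑ l, s l = d) : ∃ m : Ex n d, toF m = s := by
  have hle : ∀ l, s l < d + 1 := by
    intro l
    have : s l ≤ ∑ l, s l := single_le_sum (f := fun l => s l) (fun _ _ => Nat.zero_le _) (mem_univ l)
    omega
  refine ⟨⟨fun l => ⟨s l, hle l⟩, by simpa using h⟩, ?_⟩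
  ext l
  rw [toF_apply]

theorem hom_eval {R : Type u} [CommRing R] (P : MvPolynomial (Fin n) R) (hP : P.IsHomogeneous d)
    (x : Fin n → R) : eval x P = ∑ m : Ex n d, coeff (toF m) P * mon m x := by
  rw [eval_eq']
  have h1 : ∑ m : Ex n d, coeff (toF m) P * mon m x =
      ∑ s ∈ univ.image (toF : Ex n d → (Fin n →₀ ℕ)), coeff s P * ∏ i, x i ^ s i := by
    rw [sum_image fun a _ b _ h => toF_inj h]
    refine sum_congr rfl fun m _ => ?_
    unfold mon
    simp only [toF_apply]
  rw [h1]
  apply sum_subset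
  · intro s hs
    rw [mem_image]
    have h2 := hP (mem_support_iff.mp hs)
    have h3 : ∑ l, s l = d := by
      rw [← h2, Finsupp.weight_apply, Finsupp.sum_fintype]
      · simp
      · simp
    obtain ⟨m, hm⟩ := toF_surj s h3
    exact ⟨m, mem_univ _, hm⟩
  · intro s _ hs
    rw [notMem_support_iff.mp hs, zero_mul]

theorem lin_hom {R : Type u} [CommRing R] (A : Matrix (Fin n) (Fin n) R) (c : Cf n d → R)
    (j : Fin n) : (ev (fun b => (C (c b) : MvPolynomial (Fin n) R))
      (fun l => ∑ s, C (A l s) * X s) j).IsHomogeneous d := by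
  unfold ev
  apply IsHomogeneous.sum
  intro m _
  have h1 : (mon m (fun l => ∑ s, C (A l s) * X s : Fin n → MvPolynomial (Fin n) R)).IsHomogeneous d := by
    unfold mon
    have h2 := IsHomogeneous.prod (univ : Finset (Fin n))
      (fun l => (∑ s, C (A l s) * X s : MvPolynomial (Fin n) R) ^ (m.1 l : ℕ))
      (fun l => 1 * (m.1 l : ℕ)) (fun l _ => by
        apply IsHomogeneous.pow
        apply IsHomogeneous.sum
        intro s _
        have := (isHomogeneous_C (Fin n) (A l s)).mul (isHomogeneous_X R s)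
        rwa [zero_add] at this)
    have h3 : ∑ l, 1 * (m.1 l : ℕ) = d := by
      simp only [one_mul]
      exact m.2
    rw [h3] at h2
    exact h2
  have h2 := (isHomogeneous_C (Fin n) (c (j, m))).mul h1
  rwa [zero_add] at h2

theorem ev_conj {R : Type u} [CommRing R] (c : Cf n d → R) (A A' : Matrix (Fin n) (Fin n) R)
    (x : Fin n → R) : ev (conj A A' c) x = A' *ᵥ ev c (A *ᵥ x) := by
  funext i
  have h1 : ∀ j, ev c (A *ᵥ x) j = ∑ m : Ex n d, coeff (toF m)
      (ev (fun b => (C (c b) : MvPolynomial (Fin n) R)) (fun l => ∑ s, C (A l s) * X s) j) *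
        mon m x := by
    intro j
    rw [← hom_eval _ (lin_hom A c j)]
    have h2 := congrFun (ev_map (eval x) (fun b => (C (c b) : MvPolynomial (Fin n) R))
      (fun l => ∑ s, C (A l s) * X s)) j
    rw [← h2]
    congr 1
    · funext b
      simp
    · funext l
      simp [mulVec, dotProduct]
  have e1 : ev (conj A A' c) x i = ∑ m, conj A A' c (i, m) * mon m x := rfl
  have e2 : (A' *ᵥ ev c (A *ᵥ x)) i = ∑ j, A' i j * ev c (A *ᵥ x) j := rfl
  have e3 : ∀ m : Ex n d, conj A A' c (i, m) = ∑ j, A' i j * coeff (toF m)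
      (ev (fun b => (C (c b) : MvPolynomial (Fin n) R)) (fun l => ∑ s, C (A l s) * X s) j) :=
    fun m => rfl
  rw [e1, e2]
  simp only [h1, e3, sum_mul, mul_sum]
  rw [sum_comm]
  refine sum_congr rfl fun j _ => sum_congr rfl fun m _ => ?_
  ring

theorem ev_ext {K : Type u} [Field K] [Infinite K] (c c' : Cf n d → K)
    (h : ∀ x, ev c x = ev c' x) : c = c' := by
  have key : ∀ (c : Cf n d → K) (i : Fin n) (m : Ex n d),
      coeff (toF m) (∑ m' : Ex n d, monomial (toF m') (c (i, m'))) = c (i, m) := by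
    intro c i m
    rw [coeff_sum]
    simp only [coeff_monomial]
    rw [sum_eq_single m]
    · simp
    · intro b _ hb
      rw [if_neg (fun h => hb (toF_inj h))]
    · intro h; exact absurd (mem_univ _) h
  have key2 : ∀ (c : Cf n d → K) (i : Fin n) (x : Fin n → K),
      eval x (∑ m' : Ex n d, monomial (toF m') (c (i, m'))) = ev c x i := by
    intro c i x
    rw [map_sum]
    unfold ev
    refine sum_congr rfl fun m _ => ?_
    rw [eval_monomial]
    unfold mon
    rw [Finsupp.prod_fintype]
    · simp only [toF_apply]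
    · simp
  funext a
  obtain ⟨i, m⟩ := a
  have h1 : (∑ m' : Ex n d, monomial (toF m') (c (i, m')) : MvPolynomial (Fin n) K) =
      ∑ m' : Ex n d, monomial (toF m') (c' (i, m')) := by
    apply MvPolynomial.funext
    intro x
    rw [key2, key2, h x]
  rw [← key c i m, ← key c' i m, h1]

theorem conj_map {R : Type u} {S : Type v} [CommRing R] [CommRing S] (φ : R →+* S)
    (c : Cf n d → R) (A A' : Matrix (Fin n) (Fin n) R) :
    conj (A.map φ) (A'.map φ) (fun a => φ (c a)) = fun a => φ (conj A A' c a) := by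
  funext a
  unfold conj
  rw [map_sum]
  refine sum_congr rfl fun j _ => ?_
  rw [map_mul, ← coeff_map]
  congr 2
  have h2 := congrFun (ev_map (MvPolynomial.map φ) (fun b => (C (c b) : MvPolynomial (Fin n) R))
      (fun l => ∑ s, C (A l s) * X s)) j
  rw [← h2]
  congr 1
  · funext b
    simp
  · funext l
    simp

theorem conj_lin {R : Type u} [CommRing R] (c c' : Cf n d → R) (r : R)
    (A A' : Matrix (Fin n) (Fin n) R) : conj A A' (fun a => c a + r * c' a) =
      fun a => conj A A' c a + r * conj A A' c' a := by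
  funext a
  unfold conj
  rw [mul_sum, ← sum_add_distrib]
  refine sum_congr rfl fun j _ => ?_
  have h1 : ev (fun b => (C (c b + r * c' b) : MvPolynomial (Fin n) R))
      (fun l => ∑ s, C (A l s) * X s) j =
      ev (fun b => (C (c b) : MvPolynomial (Fin n) R)) (fun l => ∑ s, C (A l s) * X s) j +
      C r * ev (fun b => (C (c' b) : MvPolynomial (Fin n) R)) (fun l => ∑ s, C (A l s) * X s) j := by
    unfold ev
    rw [mul_sum, ← sum_add_distrib]
    refine sum_congr rfl fun m _ => ?_
    beta_reduce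
    rw [C_add, C_mul]
    ring
  rw [h1, coeff_add, coeff_C_mul]
  ring

/-- products with square zero increments -/
theorem prod_nil {R : Type u} [CommRing R] {ι : Type*} [DecidableEq ι] (T : Finset ι) (a b : ι → R)
    (h : ∀ s t, b s * b t = 0) :
    ∏ l ∈ T, (a l + b l) = ∏ l ∈ T, a l + ∑ l ∈ T, b l * ∏ s ∈ T.erase l, a s := by
  induction T using Finset.induction_on with
  | empty => simp
  | insert i T hi ih =>
    rw [prod_insert hi, prod_insert hi, sum_insert hi, erase_insert hi, ih]
    have h1 : ∑ l ∈ T, b l * ∏ s ∈ (insert i T).erase l, a s =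
        a i * ∑ l ∈ T, b l * ∏ s ∈ T.erase l, a s := by
      rw [mul_sum]
      refine sum_congr rfl fun l hl => ?_
      have hne : l ≠ i := fun h => hi (h ▸ hl)
      rw [erase_insert_of_ne (Ne.symm hne), prod_insert (fun h => hi (mem_of_mem_erase h))]
      ring
    have h2 : b i * ∑ l ∈ T, b l * ∏ s ∈ T.erase l, a s = 0 := by
      rw [mul_sum]
      refine sum_eq_zero fun l _ => ?_
      rw [← mul_assoc, h, zero_mul]
    rw [h1]
    linear_combination h2

theorem pow_nil {R : Type u} [CommRing R] (x y : R) (h : y * y = 0) (e : ℕ) :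
    (x + y) ^ e = x ^ e + (e : R) * y * x ^ (e - 1) := by
  induction e with
  | zero => simp
  | succ e ih =>
    rw [pow_succ, ih]
    rcases Nat.eq_zero_or_pos e with he | he
    · subst he; simp
    · have : x ^ e = x ^ (e - 1) * x := by
        rw [← pow_succ]
        congr 1
        omega
      have h2 : e + 1 - 1 = e := by omega
      rw [h2, pow_succ]
      push_cast
      rw [this]
      linear_combination (e : R) * x ^ (e - 1) * h

theorem mon_nil {R : Type u} [CommRing R] (m : Ex n d) (x y : Fin n → R)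
    (h : ∀ s t, y s * y t = 0) : mon m (x + y) = mon m x + dmon m x y := by
  unfold mon dmon
  have h1 : ∀ l, (x + y) l ^ (m.1 l : ℕ) = x l ^ (m.1 l : ℕ) +
      ((m.1 l : ℕ) : R) * y l * x l ^ ((m.1 l : ℕ) - 1) := fun l => pow_nil (x l) (y l) (h l l) _
  simp only [h1]
  rw [prod_nil]
  · congr 1
    refine sum_congr rfl fun l _ => ?_
    rw [mul_assoc]
    congr 1
    rw [← mul_prod_erase univ _ (mem_univ l), if_pos rfl]
    congr 1
    refine prod_congr rfl fun s hs => ?_
    rw [if_neg (ne_of_mem_erase hs)]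
  · intro s t
    linear_combination ((m.1 s : ℕ) : R) * x s ^ ((m.1 s : ℕ) - 1) * ((m.1 t : ℕ) : R) *
      x t ^ ((m.1 t : ℕ) - 1) * h s t

theorem ev_nil {R : Type u} [CommRing R] (c : Cf n d → R) (x y : Fin n → R)
    (h : ∀ s t, y s * y t = 0) : ev c (x + y) = ev c x + dev c x y := by
  funext i
  simp only [Pi.add_apply]
  unfold ev dev
  rw [← sum_add_distrib]
  refine sum_congr rfl fun m _ => ?_
  rw [mon_nil m x y h]
  ring

theorem taylor0 {R : Type u} [CommRing R] (c : Cf n d → R) (x y : Fin n → R) :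
    ∃ h : Fin n → Fin n → Fin n → R, ∀ i,
      ev c (x + y) i = ev c x i + dev c x y i + ∑ s, ∑ t, y s * y t * h i s t := by
  set J : Ideal R := Ideal.span (Set.range fun p : Fin n × Fin n => y p.1 * y p.2) with hJ
  have h0 : ∀ s t, (Ideal.Quotient.mk J) (y s) * (Ideal.Quotient.mk J) (y t) = 0 := by
    intro s t
    rw [← map_mul, Ideal.Quotient.eq_zero_iff_mem]
    exact Ideal.subset_span ⟨(s, t), rfl⟩
  have h1 : ∀ i, ev c (x + y) i - (ev c x i + dev c x y i) ∈ J := by
    intro i
    rw [← Ideal.Quotient.eq_zero_iff_mem, map_sub, map_add, sub_eq_zero]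
    have h2 := congrFun (ev_nil (fun a => Ideal.Quotient.mk J (c a))
      (fun l => Ideal.Quotient.mk J (x l)) (fun l => Ideal.Quotient.mk J (y l)) h0) i
    have h3 := congrFun (ev_map (Ideal.Quotient.mk J) c (x + y)) i
    have h4 := congrFun (ev_map (Ideal.Quotient.mk J) c x) i
    have h5 := congrFun (dev_map (Ideal.Quotient.mk J) c x y) i
    rw [← h3, ← h4, ← h5]
    rw [Pi.add_apply] at h2
    rw [← h2]
    congr 1
  have h2 : ∀ i, ∃ g : Fin n × Fin n → R,
      ∑ p, g p * (y p.1 * y p.2) = ev c (x + y) i - (ev c x i + dev c x y i) := by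
    intro i
    have := h1 i
    rw [hJ, Ideal.mem_span_range_iff_exists_fun] at this
    exact this
  choose g hg using h2
  refine ⟨fun i s t => g i (s, t), fun i => ?_⟩
  have h3 := hg i
  rw [Fintype.sum_prod_type] at h3
  have h4 : ∑ s, ∑ t, y s * y t * g i (s, t) = ∑ s, ∑ t, g i (s, t) * (y s * y t) :=
    sum_congr rfl fun s _ => sum_congr rfl fun t _ => mul_comm _ _
  rw [h4]
  linear_combination -h3

theorem taylor {R : Type u} [CommRing R] (c : Cf n d → R) (x y : Fin n → R)
    (S : Subring R) (hc : ∀ a, c a ∈ S) (hx : ∀ l, x l ∈ S) (hy : ∀ l, y l ∈ S) :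
    ∃ h : Fin n → Fin n → Fin n → R, (∀ i s t, h i s t ∈ S) ∧ ∀ i,
      ev c (x + y) i = ev c x i + dev c x y i + ∑ s, ∑ t, y s * y t * h i s t := by
  obtain ⟨h, hh⟩ := taylor0 (R := S) (fun a => (⟨c a, hc a⟩ : S)) (fun l => ⟨x l, hx l⟩)
    (fun l => ⟨y l, hy l⟩)
  refine ⟨fun i s t => (h i s t : R), fun i s t => (h i s t).2, fun i => ?_⟩
  have h1 := congrArg (S.subtype) (hh i)
  have h3 := congrFun (ev_map S.subtype (fun a => (⟨c a, hc a⟩ : S))
    ((fun l => ⟨x l, hx l⟩ : Fin n → S) + (fun l => ⟨y l, hy l⟩))) i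
  have h4 := congrFun (ev_map S.subtype (fun a => (⟨c a, hc a⟩ : S))
    (fun l => ⟨x l, hx l⟩ : Fin n → S)) i
  have h5 := congrFun (dev_map S.subtype (fun a => (⟨c a, hc a⟩ : S))
    (fun l => ⟨x l, hx l⟩ : Fin n → S) (fun l => ⟨y l, hy l⟩)) i
  rw [map_add, map_add, map_sum] at h1
  simp only [map_sum, map_mul] at h1
  rw [← h3, ← h4, ← h5] at h1
  exact h1

theorem euler {R : Type u} [CommRing R] (c : Cf n d → R) (x : Fin n → R) :
    dev c x x = fun i => (d : R) * ev c x i := by
  have h1 : ∀ m : Ex n d, dmon m x x = (d : R) * mon m x := by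
    intro m
    unfold dmon mon
    have h2 : ∀ l, ((m.1 l : ℕ) : R) * x l * ∏ s, x s ^ (if s = l then (m.1 s : ℕ) - 1 else
        (m.1 s : ℕ)) = ((m.1 l : ℕ) : R) * ∏ s, x s ^ (m.1 s : ℕ) := by
      intro l
      rcases Nat.eq_zero_or_pos (m.1 l : ℕ) with h | h
      · rw [h]; simp
      · rw [mul_assoc]
        congr 1
        rw [← mul_prod_erase univ _ (mem_univ l), ← mul_prod_erase univ _ (mem_univ l), if_pos rfl,
          ← mul_assoc, ← pow_succ']
        have : (m.1 l : ℕ) - 1 + 1 = (m.1 l : ℕ) := by omega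
        rw [this]
        congr 1
        refine prod_congr rfl fun s hs => ?_
        rw [if_neg (ne_of_mem_erase hs)]
    rw [sum_congr rfl fun l _ => h2 l, ← sum_mul]
    congr 1
    have h3 := m.2
    have h4 : ((∑ l, (m.1 l : ℕ) : ℕ) : R) = (d : R) := by rw [h3]
    push_cast at h4
    exact h4
  funext i
  unfold dev ev
  rw [mul_sum]
  refine sum_congr rfl fun m _ => ?_
  rw [h1]
  ring

theorem dmon_smul {R : Type u} [CommRing R] (m : Ex n d) (x y : Fin n → R) (r : R) :
    dmon m x (fun l => r * y l) = r * dmon m x y := by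
  unfold dmon
  rw [mul_sum]
  refine sum_congr rfl fun l _ => ?_
  ring

theorem dev_smul {R : Type u} [CommRing R] (c : Cf n d → R) (x y : Fin n → R) (r : R) :
    dev c x (fun l => r * y l) = fun i => r * dev c x y i := by
  funext i
  unfold dev
  rw [mul_sum]
  refine sum_congr rfl fun m _ => ?_
  rw [dmon_smul]
  ring

/-- dual numbers -/
theorem ev_dual {R : Type u} [CommRing R] (c : Cf n d → R) (x y : Fin n → R) (i : Fin n) :
    ev (fun a => (TrivSqZeroExt.inlHom R R) (c a))
      ((fun l => (TrivSqZeroExt.inlHom R R) (x l)) +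
        (fun l => DualNumber.eps * (TrivSqZeroExt.inlHom R R) (y l))) i =
      (TrivSqZeroExt.inlHom R R) (ev c x i) +
        DualNumber.eps * (TrivSqZeroExt.inlHom R R) (dev c x y i) := by
  rw [ev_nil]
  · rw [Pi.add_apply, dev_smul]
    have h4 := congrFun (ev_map (TrivSqZeroExt.inlHom R R) c x) i
    have h5 := congrFun (dev_map (TrivSqZeroExt.inlHom R R) c x y) i
    rw [h4, ← h5]
  · intro s t
    have : (DualNumber.eps : DualNumber R) * DualNumber.eps = 0 := DualNumber.eps_mul_eps
    linear_combination (TrivSqZeroExt.inlHom R R) (y s) * (TrivSqZeroExt.inlHom R R) (y t) * this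

theorem chain {R : Type u} [CommRing R] (c : Cf n d → R) (A A' : Matrix (Fin n) (Fin n) R)
    (x y : Fin n → R) : dev (conj A A' c) x y = A' *ᵥ dev c (A *ᵥ x) (A *ᵥ y) := by
  funext i
  set ι : R →+* DualNumber R := TrivSqZeroExt.inlHom R R with hι
  set xt : Fin n → DualNumber R := (fun l => ι (x l)) + (fun l => DualNumber.eps * ι (y l)) with hxt
  have h1 := congrFun (ev_conj (fun a => ι (c a)) (A.map ι) (A'.map ι) xt) i
  rw [conj_map, hxt, ev_dual] at h1
  have h2 : (A.map ι) *ᵥ ((fun l => ι (x l)) + (fun l => DualNumber.eps * ι (y l))) =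
      (fun l => ι ((A *ᵥ x) l)) + (fun l => DualNumber.eps * ι ((A *ᵥ y) l)) := by
    funext l
    simp only [mulVec, dotProduct, Pi.add_apply, Matrix.map_apply, map_sum, map_mul, mul_add,
      sum_add_distrib, mul_sum]
    congr 1
    refine sum_congr rfl fun s _ => ?_
    ring
  rw [h2] at h1
  have h3 : (A'.map ι *ᵥ ev (fun a => ι (c a)) ((fun l => ι ((A *ᵥ x) l)) +
      (fun l => DualNumber.eps * ι ((A *ᵥ y) l)))) i =
      ι ((A' *ᵥ ev c (A *ᵥ x)) i) + DualNumber.eps * ι ((A' *ᵥ dev c (A *ᵥ x) (A *ᵥ y)) i) := by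
    simp only [mulVec, dotProduct, Matrix.map_apply]
    rw [map_sum, map_sum, mul_sum, ← sum_add_distrib]
    refine sum_congr rfl fun j _ => ?_
    have := ev_dual c (A *ᵥ x) (A *ᵥ y) j
    rw [← hι] at this
    simp only [mulVec, dotProduct] at this
    rw [this, map_mul, map_mul]
    ring
  rw [h3] at h1
  have h4 := congrArg TrivSqZeroExt.snd h1
  simpa [hι] using h4

theorem t_BASE : S_BASE.{u} := by
  refine ⟨?_, ?_, ?_, ?_, ?_, ?_, ?_, ?_, ?_⟩
  · intro R _ n d c A A' x
    exact ev_conj c A A' x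
  · intro K _ _ n d c c' h
    exact ev_ext c c' h
  · intro R S _ _ φ n d c x
    exact ev_map φ c x
  · intro R S _ _ φ n d c x y
    exact dev_map φ c x y
  · intro R S _ _ φ n d c A A'
    exact conj_map φ c A A'
  · intro R _ n d c c' r A A'
    exact conj_lin c c' r A A'
  · intro R _ n d c x y S hc hx hy
    exact taylor c x y S hc hx hy
  · intro R _ n d c x
    exact euler c x
  · intro R _ n d c A A' x y
    exact chain c A A' x y

end Pool.Agent.D0H81.SM
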