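import Mathlib
import Pool.Agent.D0H90.SM.Stm
import Pool.Agent.D0H81.SM.Base

/-! Project SM, module INJ: a nondegenerate tuple of forms has no infinitesimal automorphism. -/

set_option autoImplicit false

open Finset

namespace Pool.Agent.D0H81.SM

open Pool.Agent.D0H90.SM
open Matrix

universe u v

variable {n d : ℕ}

theorem nil_root {K : Type u} [Field K] {n d : ℕ}
    (c : Cf n d → K) (hc : Nondeg c) (B : Matrix (Fin n) (Fin n) K)
    (hB : ∀ x, dev c x (B *ᵥ x) = B *ᵥ ev c x) (lam : K) (hl : B.charpoly.IsRoot lam) :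
    B.charpoly.IsRoot ((d : K) * lam) := by
  rw [Polynomial.IsRoot.def, eval_charpoly, ← Matrix.exists_mulVec_eq_zero_iff] at hl ⊢
  obtain ⟨v, hv, h⟩ := hl
  have h1 : B *ᵥ v = fun l => lam * v l := by
    rw [Matrix.sub_mulVec, sub_eq_zero] at h
    rw [← h]
    funext l
    simp [Matrix.scalar_apply, Matrix.mulVec_diagonal]
  refine ⟨ev c v, fun h0 => hv (hc v h0), ?_⟩
  rw [Matrix.sub_mulVec, sub_eq_zero, ← hB v, h1, dev_smul, euler]
  funext l
  simp only [Matrix.scalar_apply, Matrix.mulVec_diagonal]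
  ring

theorem nil_of {K : Type u} [Field K] [IsAlgClosed K] [CharZero K] {n d : ℕ} (hd : 2 ≤ d)
    (c : Cf n d → K) (hc : Nondeg c) (B : Matrix (Fin n) (Fin n) K)
    (hB : ∀ x, dev c x (B *ᵥ x) = B *ᵥ ev c x) : ∃ r : ℕ, B ^ r = 0 := by
  have h1 : ∀ lam, B.charpoly.IsRoot lam → lam = 0 := by
    intro lam hl
    by_contra hne
    have h2 : ∀ k : ℕ, B.charpoly.IsRoot ((d : K) ^ k * lam) := by
      intro k
      induction k with
      | zero => simpa using hl
      | succ k ih =>
        have := nil_root c hc B hB _ ih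
        rw [pow_succ', mul_assoc]
        exact this
    have h3 : Function.Injective (fun k : ℕ => (d : K) ^ k * lam) := by
      intro a b hab
      have h4 : (d : K) ^ a = (d : K) ^ b := mul_right_cancel₀ hne hab
      have h5 : d ^ a = d ^ b := by exact_mod_cast h4
      exact Nat.pow_right_injective hd h5
    have h4 : Set.Infinite {x | B.charpoly.IsRoot x} :=
      (Set.infinite_range_of_injective h3).mono (by rintro _ ⟨k, rfl⟩; exact h2 k)
    exact B.charpoly_monic.ne_zero (Polynomial.eq_zero_of_infinite_isRoot _ h4)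
  have h2 : B.charpoly = (B.charpoly.roots.map fun a => Polynomial.X - Polynomial.C a).prod :=
    (IsAlgClosed.splits B.charpoly).eq_prod_roots_of_monic B.charpoly_monic
  have h3 : B.charpoly.roots = Multiset.replicate (Multiset.card B.charpoly.roots) 0 :=
    Multiset.eq_replicate_card.mpr fun a ha => h1 a (Polynomial.isRoot_of_mem_roots ha)
  rw [h3, Multiset.map_replicate, Multiset.prod_replicate, map_zero, sub_zero] at h2
  refine ⟨Multiset.card B.charpoly.roots, ?_⟩
  have h4 := B.aeval_self_charpoly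
  rw [h2, map_pow, Polynomial.aeval_X] at h4
  exact h4

theorem deriv_mon {K : Type u} [Field K] (m : Ex n d) (y : Fin n → Polynomial K) :
    Polynomial.derivative (mon m y) = dmon m y (fun l => Polynomial.derivative (y l)) := by
  unfold mon dmon
  rw [Polynomial.derivative_prod_finset]
  refine sum_congr rfl fun l _ => ?_
  rw [Polynomial.derivative_pow, ← mul_prod_erase univ _ (mem_univ l), if_pos rfl]
  have h1 : ∏ s ∈ univ.erase l, y s ^ (if s = l then (m.1 s : ℕ) - 1 else (m.1 s : ℕ)) =
      ∏ s ∈ univ.erase l, y s ^ (m.1 s : ℕ) := by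
    refine prod_congr rfl fun s hs => ?_
    rw [if_neg (ne_of_mem_erase hs)]
  rw [h1]
  simp only [map_natCast]
  ring

theorem deriv_ev {K : Type u} [Field K] (c : Cf n d → K) (y : Fin n → Polynomial K) (i : Fin n) :
    Polynomial.derivative (ev (fun a => Polynomial.C (c a)) y i) =
      dev (fun a => Polynomial.C (c a)) y (fun l => Polynomial.derivative (y l)) i := by
  unfold ev dev
  rw [map_sum]
  refine sum_congr rfl fun m _ => ?_
  rw [Polynomial.derivative_C_mul, deriv_mon]

/-- the hypothesis over polynomials -/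
theorem hyp_poly {K : Type u} [Field K] [Infinite K] (c : Cf n d → K)
    (B : Matrix (Fin n) (Fin n) K)
    (hB : ∀ x, dev c x (B *ᵥ x) = B *ᵥ ev c x) (y : Fin n → Polynomial K) :
    dev (fun a => Polynomial.C (c a)) y ((B.map Polynomial.C) *ᵥ y) =
      (B.map Polynomial.C) *ᵥ ev (fun a => Polynomial.C (c a)) y := by
  funext i
  apply Polynomial.funext
  intro t
  have h1 := congrFun (dev_map (Polynomial.evalRingHom t) (fun a => Polynomial.C (c a)) y
    ((B.map Polynomial.C) *ᵥ y)) i
  have h2 : ∀ (w : Fin n → Polynomial K) (l : Fin n),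
      Polynomial.evalRingHom t (((B.map Polynomial.C) *ᵥ w) l) =
        (B *ᵥ fun s => Polynomial.evalRingHom t (w s)) l := by
    intro w l
    simp [mulVec, dotProduct]
  have h3 := ev_map (Polynomial.evalRingHom t) (fun a => Polynomial.C (c a)) y
  have h4 : (fun a => Polynomial.evalRingHom t (Polynomial.C (c a))) = c := by
    funext a; simp
  rw [h4] at h1 h3
  rw [← Polynomial.coe_evalRingHom, ← h1, h2, ← h3, ← hB]
  congr 1
  funext l
  exact h2 y l

/-- uniqueness for the linear differential equation -/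
theorem ode {K : Type u} [Field K] [CharZero K] (B : Matrix (Fin n) (Fin n) K)
    (G : Fin n → Polynomial K)
    (hG : ∀ i, Polynomial.derivative (G i) = ((B.map Polynomial.C) *ᵥ G) i)
    (h0 : ∀ i, (G i).coeff 0 = 0) : ∀ i, G i = 0 := by
  have h1 : ∀ k i, (G i).coeff k = 0 := by
    intro k
    induction k with
    | zero => exact h0
    | succ k ih =>
      intro i
      have h2 := congrArg (fun p => Polynomial.coeff p k) (hG i)
      simp only [mulVec, dotProduct, Matrix.map_apply, Polynomial.finsetSum_coeff,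
        Polynomial.coeff_C_mul, Polynomial.coeff_derivative, ih, mul_zero, sum_const_zero] at h2
      have h3 : ((k : K) + 1) ≠ 0 := Nat.cast_add_one_ne_zero k
      exact (mul_eq_zero.mp h2).resolve_right h3
  intro i
  ext k
  rw [h1 k i, Polynomial.coeff_zero]

/-- top coefficient of a monomial -/
theorem mon_top {K : Type u} [Field K] (r : ℕ) (y : Fin n → Polynomial K)
    (hy : ∀ l, (y l).natDegree ≤ r) (e : Fin n → ℕ) (T : Finset (Fin n)) :
    (∏ l ∈ T, y l ^ e l).natDegree ≤ (∑ l ∈ T, e l) * r ∧
      (∏ l ∈ T, y l ^ e l).coeff ((∑ l ∈ T, e l) * r) = ∏ l ∈ T, (y l).coeff r ^ e l := by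
  induction T using Finset.induction_on with
  | empty => simp
  | insert i T hi ih =>
    rw [prod_insert hi, sum_insert hi, prod_insert hi, add_mul]
    have h1 : (y i ^ e i).natDegree ≤ e i * r :=
      Polynomial.natDegree_pow_le_of_le (e i) (hy i)
    refine ⟨Polynomial.natDegree_mul_le_of_le h1 ih.1, ?_⟩
    rw [Polynomial.coeff_mul_add_eq_of_natDegree_le h1 ih.1, ih.2,
      Polynomial.coeff_pow_of_natDegree_le (hy i)]

theorem ev_top {K : Type u} [Field K] (c : Cf n d → K) (r : ℕ) (y : Fin n → Polynomial K)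
    (hy : ∀ l, (y l).natDegree ≤ r) (i : Fin n) :
    (ev (fun a => Polynomial.C (c a)) y i).coeff (d * r) =
      ev c (fun l => (y l).coeff r) i := by
  unfold ev
  rw [Polynomial.finsetSum_coeff]
  refine sum_congr rfl fun m _ => ?_
  rw [Polynomial.coeff_C_mul]
  have := (mon_top r y hy (fun l => (m.1 l : ℕ)) univ).2
  rw [m.2] at this
  unfold mon
  rw [this]

/-- the exponential of a nilpotent matrix applied to a vector -/
noncomputable def ex {K : Type u} [Field K] {n : ℕ} (B : Matrix (Fin n) (Fin n) K) (r : ℕ)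
    (x : Fin n → K) (l : Fin n) : Polynomial K :=
  ∑ j ∈ range (r + 1), Polynomial.C (((j.factorial : K))⁻¹ * ((B ^ j) *ᵥ x) l) * Polynomial.X ^ j

theorem ex_coeff {K : Type u} [Field K] (B : Matrix (Fin n) (Fin n) K) (r : ℕ)
    (x : Fin n → K) (l : Fin n) (k : ℕ) : (ex B r x l).coeff k =
      if k ≤ r then ((k.factorial : K))⁻¹ * ((B ^ k) *ᵥ x) l else 0 := by
  unfold ex
  rw [Polynomial.finsetSum_coeff]
  simp only [Polynomial.coeff_C_mul, Polynomial.coeff_X_pow, mul_ite, mul_one, mul_zero]
  rw [Finset.sum_ite_eq (range (r + 1)) k]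
  simp only [mem_range, Nat.lt_succ_iff]

theorem ex_deg {K : Type u} [Field K] (B : Matrix (Fin n) (Fin n) K) (r : ℕ)
    (x : Fin n → K) (l : Fin n) : (ex B r x l).natDegree ≤ r := by
  rw [Polynomial.natDegree_le_iff_coeff_eq_zero]
  intro k hk
  rw [ex_coeff, if_neg (by omega)]

theorem ex_deriv {K : Type u} [Field K] [CharZero K] (B : Matrix (Fin n) (Fin n) K) (r : ℕ)
    (hr : B ^ (r + 1) = 0) (x : Fin n → K) (l : Fin n) :
    Polynomial.derivative (ex B r x l) = ((B.map Polynomial.C) *ᵥ (ex B r x)) l := by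
  ext k
  simp only [mulVec, dotProduct, Matrix.map_apply, Polynomial.finsetSum_coeff,
        Polynomial.coeff_C_mul, Polynomial.coeff_derivative, ex_coeff]
  have h1 : ∀ j, ∑ s, B l s * ((B ^ j) *ᵥ x) s = ((B ^ (j + 1)) *ᵥ x) l := by
    intro j
    rw [pow_succ', ← Matrix.mulVec_mulVec]
    rfl
  have h1' : ∀ j, ∑ s, B l s * ∑ t, (B ^ j) s t * x t = ∑ t, (B ^ (j + 1)) l t * x t := by
    intro j
    exact h1 j
  by_cases hk : k + 1 ≤ r
  · rw [if_pos hk]
    simp only [if_pos (show k ≤ r by omega)]
    have h2 : ∑ s, B l s * ((k.factorial : K)⁻¹ * ∑ t, (B ^ k) s t * x t) =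
        (k.factorial : K)⁻¹ * ∑ t, (B ^ (k + 1)) l t * x t := by
      rw [← h1' k, mul_sum]
      refine sum_congr rfl fun s _ => ?_
      ring
    rw [h2, Nat.factorial_succ]
    have h3 : ((k : K) + 1) ≠ 0 := Nat.cast_add_one_ne_zero k
    have h4 : (k.factorial : K) ≠ 0 := Nat.cast_ne_zero.mpr (Nat.factorial_ne_zero k)
    push_cast
    field_simp
  · rw [if_neg hk, zero_mul]
    by_cases hk2 : k ≤ r
    · have hk3 : k = r := by omega
      subst hk3
      simp only [if_pos le_rfl]
      have h2 : ∑ s, B l s * ((k.factorial : K)⁻¹ * ∑ t, (B ^ k) s t * x t) =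
          (k.factorial : K)⁻¹ * ∑ t, (B ^ (k + 1)) l t * x t := by
        rw [← h1' k, mul_sum]
        refine sum_congr rfl fun s _ => ?_
        ring
      rw [h2, hr]
      simp
    · simp [hk2]

theorem inj_step {K : Type u} [Field K] [CharZero K] {n d : ℕ} (hd : 2 ≤ d)
    (c : Cf n d → K) (hc : Nondeg c) (B : Matrix (Fin n) (Fin n) K)
    (hB : ∀ x, dev c x (B *ᵥ x) = B *ᵥ ev c x) (r : ℕ) (hr1 : 1 ≤ r) (hr : B ^ (r + 1) = 0) :
    B ^ r = 0 := by
  haveI : Infinite K := Infinite.of_injective (fun k : ℕ => (k : K)) Nat.cast_injective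
  have key : ∀ x, (B ^ r) *ᵥ x = 0 := by
    intro x
    set y := ex B r x with hy
    set P : Fin n → Polynomial K := ev (fun a => Polynomial.C (c a)) y with hP
    set Q : Fin n → Polynomial K := ex B r (ev c x) with hQ
    have h1 : ∀ i, (P - Q) i = 0 := by
      apply ode B
      · intro i
        rw [Matrix.mulVec_sub, Pi.sub_apply, Pi.sub_apply, Polynomial.derivative_sub, hP, deriv_ev,
          hQ, ex_deriv B r hr, ← hyp_poly c B hB y]
        congr 2
        funext l
        rw [hy, ex_deriv B r hr]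
      · intro i
        rw [Pi.sub_apply, Polynomial.coeff_sub, sub_eq_zero, hP, hQ, ex_coeff,
          if_pos (Nat.zero_le _), Polynomial.coeff_zero_eq_eval_zero]
        have h2 := congrFun (ev_map (Polynomial.evalRingHom 0) (fun a => Polynomial.C (c a)) y) i
        rw [← Polynomial.coe_evalRingHom, ← h2]
        simp only [pow_zero, Matrix.one_mulVec, Nat.factorial_zero, Nat.cast_one, inv_one, one_mul]
        congr 1
        · funext a; simp
        · funext l
          rw [Polynomial.coe_evalRingHom, ← Polynomial.coeff_zero_eq_eval_zero, hy, ex_coeff,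
            if_pos (Nat.zero_le _)]
          simp
    have h2 : ev c (fun l => (y l).coeff r) = 0 := by
      funext i
      rw [← ev_top c r y (fun l => ex_deg B r x l) i]
      have h3 : P i = Q i := by
        have := h1 i
        rwa [Pi.sub_apply, sub_eq_zero] at this
      rw [← hP, h3, hQ, ex_coeff, if_neg]
      · rfl
      · have : 2 * r ≤ d * r := Nat.mul_le_mul_right r hd
        omega
    have h3 := hc _ h2
    have h4 : (r.factorial : K) ≠ 0 := Nat.cast_ne_zero.mpr (Nat.factorial_ne_zero r)
    funext l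
    have h5 := congrFun h3 l
    rw [hy] at h5
    simp only [ex_coeff, le_refl, if_true, Pi.zero_apply] at h5
    exact (mul_eq_zero.mp h5).resolve_left (inv_ne_zero h4)
  ext i j
  have := congrFun (key (Pi.single j 1)) i
  simpa using this

theorem t_INJ : S_INJ.{u} := by
  intro K _ _ _ n d hd c hc B hB
  obtain ⟨r, hr⟩ := nil_of hd c hc B hB
  have h1 : ∀ r : ℕ, B ^ (r + 1) = 0 → B = 0 := by
    intro r
    induction r with
    | zero => intro h; simpa using h
    | succ r ih => intro h; exact ih (inj_step hd c hc B hB (r + 1) (by omega) h)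
  apply h1 r
  rw [pow_succ, hr, zero_mul]

end Pool.Agent.D0H81.SM
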