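import Pool.Agent.D0H90.SM.All
import Pool.Agent.D0H90.SM.Stm5

set_option autoImplicit false

/-!
# Project SM (MP_807a54_ag), module 33 (RAD)
-/

namespace Pool.Agent.D0H81.SM.Rad

open MvPolynomial Matrix Pool.Agent.D0H90.SM

universe u

open Classical in
theorem key {A F : Type*} [CommRing A] [Field F] {m : ℕ} (r q : Fin m → A) (u v : A)
    (g : A →+* F) (hgv : g v ≠ 0) (hgq : ∀ i, g (q i) ≠ 0) :
      g ((∏ j, q j) * u ^ m + ∑ i : Fin m, (∏ j ∈ Finset.univ.erase i, q j) * r i *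
        (u ^ (i : ℕ) * v ^ (m - (i : ℕ)))) = (∏ j, g (q j)) * g v ^ m *
        ((g u / g v) ^ m + ∑ i : Fin m, g (r i) / g (q i) * (g u / g v) ^ (i : ℕ)) := by
  rw [map_add, map_mul, map_prod, map_pow, map_sum, mul_add, Finset.mul_sum]
  congr 1
  · rw [div_pow]; field_simp
  · refine Finset.sum_congr rfl fun i _ => ?_
    rw [map_mul, map_mul, map_prod, map_mul, map_pow, map_pow, div_pow]
    have h1 : (∏ j, g (q j)) = g (q i) * ∏ j ∈ Finset.univ.erase i, g (q j) :=
      (Finset.mul_prod_erase _ _ (Finset.mem_univ i)).symm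
    have h2 : g v ^ m = g v ^ (i : ℕ) * g v ^ (m - (i : ℕ)) := by
      rw [← pow_add]; congr 1; have := i.2; omega
    rw [h1, h2]
    have h3 := hgq i
    field_simp

/-- Transfer of a relation between fractions. -/
theorem transfer {A L K : Type*} [CommRing A] [Field L] [Field K] (ι : A →+* L)
    (hι : Function.Injective ι) (φ : A →+* K) {m : ℕ} (r q : Fin m → A) (u v : A) (hv : φ v ≠ 0)
    (hq : ∀ i, φ (q i) ≠ 0)
    (h : (ι u / ι v) ^ m + ∑ i : Fin m, ι (r i) / ι (q i) * (ι u / ι v) ^ (i : ℕ) = 0) :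
    (φ u / φ v) ^ m + ∑ i : Fin m, φ (r i) / φ (q i) * (φ u / φ v) ^ (i : ℕ) = 0 := by
  have hv0 : ι v ≠ 0 := by
    intro h0
    rw [← map_zero ι] at h0
    rw [hι h0, map_zero] at hv
    exact hv rfl
  have hq0 : ∀ i, ι (q i) ≠ 0 := by
    intro i h0
    rw [← map_zero ι] at h0
    apply hq i
    rw [hι h0, map_zero]
  have h1 := key r q u v ι hv0 hq0
  rw [h, mul_zero, ← map_zero ι] at h1
  have h2 := key r q u v φ hv hq
  rw [hι h1, map_zero] at h2
  have h3 : (∏ j, φ (q j)) * φ v ^ m ≠ 0 :=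
    mul_ne_zero (Finset.prod_ne_zero_iff.2 fun i _ => hq i) (pow_ne_zero _ hv)
  exact (mul_eq_zero.1 h2.symm).resolve_left h3

/-- A root of a monic polynomial over an algebraically closed field is a constant. -/
theorem const_of_root {k K : Type*} [Field k] [IsAlgClosed k] [Field K] [Algebra k K] {m : ℕ}
    (a : Fin m → k) (ξ : K)
    (h : ξ ^ m + ∑ i : Fin m, algebraMap k K (a i) * ξ ^ (i : ℕ) = 0) :
    ∃ t : k, algebraMap k K t = ξ := by
  have hint : IsIntegral k ξ := by
    refine ⟨Polynomial.X ^ m + ∑ i : Fin m, Polynomial.C (a i) * Polynomial.X ^ (i : ℕ), ?_, ?_⟩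
    · apply Polynomial.monic_X_pow_add
      exact Polynomial.degree_sum_fin_lt a
    · rw [← Polynomial.aeval_def, map_add, map_pow, Polynomial.aeval_X, map_sum]
      rw [← h]
      congr 1
      refine Finset.sum_congr rfl fun i _ => ?_
      rw [map_mul, map_pow, Polynomial.aeval_X, Polynomial.aeval_C]
  exact minpoly.mem_range_of_degree_eq_one k ξ
    (IsAlgClosed.degree_eq_one_of_irreducible k (minpoly.irreducible hint))

/-- An element which lies in all primes between `I` and the prime `N`. -/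
theorem exists_pow {A : Type*} [CommRing A] (I N : Ideal A) [hN : N.IsPrime] (x : A)
    (h : ∀ p : Ideal A, p.IsPrime → I ≤ p → p ≤ N → x ∈ p) :
    ∃ (S : A) (e : ℕ), S ∉ N ∧ S * x ^ e ∈ I := by
  by_contra hc
  push Not at hc
  obtain ⟨p, hp, hIp, hdis⟩ := Ideal.exists_le_prime_disjoint I
    (N.primeCompl ⊔ Submonoid.powers x) (by
      rw [Set.disjoint_left]
      intro y hy hy2
      rw [SetLike.mem_coe, Submonoid.mem_sup] at hy2
      obtain ⟨S, hS, z, ⟨e, rfl⟩, rfl⟩ := hy2
      exact hc S e hS hy)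
  rw [Set.disjoint_left] at hdis
  have hx : x ∉ p := fun hx => hdis hx (Submonoid.mem_sup.2 ⟨1, N.primeCompl.one_mem, x,
    Submonoid.mem_powers x, one_mul x⟩)
  apply hx
  refine h p hp hIp fun y hy => ?_
  by_contra hyN
  exact hdis hy (Submonoid.mem_sup.2 ⟨y, hyN, 1, Submonoid.one_mem _, mul_one y⟩)

section
open Pool.Agent.D0H84.SM
variable {k : Type u} [Field k] {n d : ℕ}

/-- Polynomials on the slice in `LL`. -/
noncomputable def io (n d : ℕ) (k : Type u) [Field k] :
    MvPolynomial (Rest n d) k →ₐ[k] LL n d k :=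
  (IsScalarTower.toAlgHom k (PP n d k) (LL n d k)).comp (rename Sum.inr)

theorem io_inj : Function.Injective (io n d k) := by
  intro a b h
  exact rename_injective _ Sum.inr_injective (IsFractionRing.injective (PP n d k) (LL n d k) h)

theorem io_res (c : Cf n d → k) (P : Pol n d k) : io n d k (res c P) = aeval (geny c) P := by
  unfold res
  rw [comp_aeval_apply]
  congr 2
  funext a
  unfold geny glue
  show algebraMap (PP n d k) (LL n d k) (rename Sum.inr _) = _
  congr 1
  split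
  · exact rename_C _ _
  · exact rename_X _ _

theorem eval_res (c : Cf n d → k) (P : Pol n d k) : eval (rest c) (res c P) = eval c P := by
  have h1 := Pool.Agent.D0H3.SM.aeval_res c (rest c) P
  have h2 : glue (fun a => algebraMap k k (c a)) (rest c) = c :=
    Pool.Agent.D0H3.SM.glue_rest c
  rw [h2] at h1
  exact h1

theorem conj_gen (hB : S_BASE.{u}) [Infinite (LL n d k)] (c : Cf n d → k) :
    conj (genE n d k) (genE n d k)⁻¹ (genfL c) = geny c := by
  unfold genfL
  rw [conj_conj hB, Matrix.nonsing_inv_mul _ (isUnit_iff_ne_zero.2 det_genE), conj_one hB]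

theorem theta_semi [Infinite k] [Infinite (LL n d k)] (c : Cf n d → k) {b : ℕ} {P Q : Pol n d k}
    (h : Semi b P Q) :
    theta c P * io n d k (res c Q) = (genE n d k).det ^ b * (io n d k (res c P) * theta c Q) := by
  have h1 := aINVK k n d b P Q h (LL n d k) (genE n d k) (genE n d k)⁻¹
    (Matrix.mul_nonsing_inv _ (isUnit_iff_ne_zero.2 det_genE)) (genfL c)
  rw [conj_gen aBASE, ← io_res, ← io_res] at h1
  exact h1

theorem rel [IsAlgClosed k] [CharZero k] (hd : 2 ≤ d) (c : Cf n d → k) (hc : Nondeg c)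
    (hTc : Transv c) (b : ℕ) (T1 T2 : Pol n d k) (hSemi : Semi b T1 T2) (hc1 : eval c T1 ≠ 0)
    (R : MvPolynomial (Rest n d) k) (M : ℕ) (hdeg : R.totalDegree < b * M) :
    ∃ (m : ℕ) (P Q : Fin m → Pol n d k), (∀ i, Invt (P i) (Q i) ∧ eval c (Q i) ≠ 0) ∧
      ∀ ψ : LL n d k,
        ψ = algebraMap (PP n d k) (LL n d k) (rename Sum.inr R) *
          (genE n d k).det ^ (b * M) / (theta c T1 / theta c T2) ^ M →
        ψ ^ m + ∑ i : Fin m, theta c (P i) / theta c (Q i) * ψ ^ (i : ℕ) = 0 := by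
  classical
  have hB : S_BASE.{u} := aBASE
  have hO : S_OVP.{u} := aOVP
  have hinfk : Infinite k := inferInstance
  have hcharL : CharZero (LL n d k) := charZero_of_injective_algebraMap
    (algebraMap k (LL n d k)).injective
  have hcharO : CharZero (OM n d k) := charZero_of_injective_algebraMap
    (algebraMap k (OM n d k)).injective
  have hinfL : Infinite (LL n d k) := inferInstance
  have hinfO : Infinite (OM n d k) := inferInstance
  obtain ⟨hstr, hintc⟩ := aSOLI k n d hd c c hTc hc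
  have hZ := sol_fin aFINS hd c hstr
  obtain ⟨pl⟩ := aPLACE k n d (rest c)
  have hgl : glue c (rest c) = c := by
    funext a
    unfold glue rest
    split <;> rfl
  have hle := ov_le hO c (rest c) pl
  obtain ⟨hT0, htm, htv⟩ := tt_mem hO c (rest c) pl T1 T2 (by rw [hgl]; exact hc1)
  set ps : Matrix (Fin n) (Fin n) (OM n d k) → OM n d k := fun E =>
    psi (algebraMap k (OM n d k)) R (b * M) M (genf c) (tt c T1 T2) E with hps
  set Θ : Finset (OM n d k) := hZ.toFinset.image ps with hΘ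
  have hmemΘ : ∀ s ∈ Θ, ∃ E, Sol c E ∧ ps E = s := by
    intro s hs
    obtain ⟨E, hE, he⟩ := Finset.mem_image.1 hs
    exact ⟨E, (hZ.mem_toFinset.1 hE), he⟩
  have hmem : ∀ E, Sol c E → ps E ∈ Θ := fun E hE =>
    Finset.mem_image.2 ⟨E, hZ.mem_toFinset.2 hE, rfl⟩
  have hic1 : ∀ s ∈ Θ, s ∈ ic (Ov c c) := by
    intro s hs
    obtain ⟨E, hE, rfl⟩ := hmemΘ s hs
    exact psi_int hB c c R _ _ T1 T2 hc1 E (hintc E hE)
  have hdesc : ∀ i : ℕ, ∃ P Q : Pol n d k, Semi 0 P Q ∧ eval c Q ≠ 0 ∧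
      (pol Θ).coeff i * thetaO c Q = thetaO c P := by
    intro i
    obtain ⟨P, Q, h1, h2, _, h3⟩ := aDESC k n d hd c hTc c c 0 ((pol Θ).coeff i) (by
      intro A A' σ hA hσ
      rw [pow_zero, one_mul]
      refine pol_fix σ Θ ?_ i
      intro s hs
      obtain ⟨E, hE, rfl⟩ := hmemΘ s hs
      have h1 := psi_sym hB c R b M hdeg T1 T2 hSemi hT0 A A' hA σ hσ E
      show σ (ps E) ∈ Θ
      have h2 : σ (ps E) = ps (im A * E.map σ) := h1
      rw [h2]
      exact hmem _ (sol_act hB c A A' hA σ hσ E hE)) (pol_coeff_mem _ Θ hic1 i)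
      (pol_coeff_mem _ Θ hic1 i)
    exact ⟨P, Q, h1, h2, h3⟩
  choose P Q hPQ using hdesc
  have hgenΘ : ps (genO n d k) ∈ Θ := hmem _ (sol_gen hB c)
  have hQ0 : ∀ i, thetaO c (Q i) ≠ 0 := by
    intro i h0
    apply (hPQ i).2.1
    obtain ⟨h1, h2, _⟩ := hO k n d c (rest c) pl (Q i)
    rw [hgl] at h2
    rw [← h2]
    have : (⟨thetaO c (Q i), h1⟩ : pl.ring) = 0 := Subtype.ext h0
    rw [this, map_zero]
  have hcoefO : ∀ i, (pol Θ).coeff i =
      algebraMap (LL n d k) (OM n d k) (theta c (P i) / theta c (Q i)) := by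
    intro i
    have e1 : algebraMap (LL n d k) (OM n d k) (theta c (Q i)) = thetaO c (Q i) := rfl
    have e2 : algebraMap (LL n d k) (OM n d k) (theta c (P i)) = thetaO c (P i) := rfl
    rw [map_div₀, e1, e2, eq_div_iff (hQ0 i)]
    exact (hPQ i).2.2
  refine ⟨Θ.card, fun i => P i, fun i => Q i, fun i => ⟨semi_zero (hPQ i).1, (hPQ i).2.1⟩, ?_⟩
  intro ψ hψ
  apply (algebraMap (LL n d k) (OM n d k)).injective
  have h1 := pol_root Θ _ hgenΘ
  rw [pol_eval] at h1
  have h2 : ps (genO n d k) = algebraMap (LL n d k) (OM n d k) ψ := by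
    rw [hψ]
    exact psi_gen hB c R (b * M) M hdeg T1 T2
  rw [h2] at h1
  rw [map_add, map_pow, map_zero, map_sum, ← h1]
  congr 1
  refine Finset.sum_congr rfl fun i _ => ?_
  rw [map_mul, map_pow, hcoefO]

/-- The relation on the slice. -/
theorem rel2 [IsAlgClosed k] [CharZero k] (hd : 2 ≤ d) (c : Cf n d → k) (hc : Nondeg c)
    (hTc : Transv c) (b : ℕ) (T1 T2 : Pol n d k) (hSemi : Semi b T1 T2) (hc1 : eval c T1 ≠ 0)
    (hc2 : eval c T2 ≠ 0)
    (R : MvPolynomial (Rest n d) k) (M : ℕ) (hdeg : R.totalDegree < b * M) :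
    ∃ (m : ℕ) (P Q : Fin m → Pol n d k), (∀ i, Invt (P i) (Q i) ∧ eval c (Q i) ≠ 0) ∧
      (io n d k (R * res c T2 ^ M) / io n d k (res c T1 ^ M)) ^ m +
        ∑ i : Fin m, io n d k (res c (P i)) / io n d k (res c (Q i)) *
          (io n d k (R * res c T2 ^ M) / io n d k (res c T1 ^ M)) ^ (i : ℕ) = 0 := by
  have hcharL : CharZero (LL n d k) := charZero_of_injective_algebraMap
    (algebraMap k (LL n d k)).injective
  have hinfL : Infinite (LL n d k) := inferInstance
  obtain ⟨m, P, Q, h1, h2⟩ := rel hd c hc hTc b T1 T2 hSemi hc1 R M hdeg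
  refine ⟨m, P, Q, h1, ?_⟩
  have hres : ∀ F : Pol n d k, eval c F ≠ 0 → io n d k (res c F) ≠ 0 := by
    intro F hF h0
    apply hF
    have h3 : res c F = 0 := io_inj (h0.trans (map_zero _).symm)
    have h4 := congrArg (eval (rest c)) h3
    rw [map_zero] at h4
    rw [← h4, eval_res]
  have hth : ∀ F : Pol n d k, eval c F ≠ 0 → theta c F ≠ 0 := by
    intro F hF h0
    apply hF
    have h3 := aTHETA k n d hd c hTc (h0.trans (map_zero (theta c)).symm)
    rw [h3, map_zero]
  have hdet : (genE n d k).det ≠ 0 := det_genE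
  have hψ := h2 _ rfl
  have hT : theta c T1 / theta c T2 =
      (genE n d k).det ^ b * (io n d k (res c T1) / io n d k (res c T2)) := by
    have h3 := theta_semi c hSemi
    have := hres T2 hc2
    have := hth T2 hc2
    field_simp
    linear_combination h3
  have hψ2 : algebraMap (PP n d k) (LL n d k) (rename Sum.inr R) *
          (genE n d k).det ^ (b * M) / (theta c T1 / theta c T2) ^ M =
      io n d k (R * res c T2 ^ M) / io n d k (res c T1 ^ M) := by
    rw [hT, map_mul, map_pow, map_pow]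
    have h3 : algebraMap (PP n d k) (LL n d k) (rename Sum.inr R) = io n d k R := rfl
    rw [h3, mul_pow, div_pow, ← pow_mul]
    have := hres T2 hc2
    have := hres T1 hc1
    field_simp
  have hco : ∀ i, theta c (P i) / theta c (Q i) =
      io n d k (res c (P i)) / io n d k (res c (Q i)) := by
    intro i
    have h3 := theta_semi (b := 0) c (P := P i) (Q := Q i) (by
      intro A A' hA x
      rw [pow_zero, one_mul]
      exact (h1 i).1 A A' hA x)
    rw [pow_zero, one_mul] at h3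
    rw [div_eq_div_iff (hth _ (h1 i).2) (hres _ (h1 i).2)]
    exact h3
  rw [hψ2] at hψ
  rw [← hψ]
  congr 1
  refine Finset.sum_congr rfl fun i _ => ?_
  rw [hco]

/-- Modulo a prime ideal between the ideal of the invariants and the point, the functions are constants. -/
theorem modp [IsAlgClosed k] [CharZero k] (hd : 2 ≤ d) (c : Cf n d → k) (hc : Nondeg c)
    (hTc : Transv c) (b : ℕ) (T1 T2 : Pol n d k) (hSemi : Semi b T1 T2) (hc1 : eval c T1 ≠ 0)
    (hc2 : eval c T2 ≠ 0) (p : Ideal (MvPolynomial (Rest n d) k)) (hp : p.IsPrime)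
    (hI : ∀ P Q : Pol n d k, Invt P Q → eval c Q ≠ 0 → eval c P = 0 → res c P ∈ p)
    (hN : ∀ g ∈ p, eval (rest c) g = 0)
    (R : MvPolynomial (Rest n d) k) (M : ℕ) (hdeg : R.totalDegree < b * M) :
    ∃ t : k, R * res c T2 ^ M - C t * res c T1 ^ M ∈ p := by
  obtain ⟨m, P, Q, h1, h2⟩ := rel2 hd c hc hTc b T1 T2 hSemi hc1 hc2 R M hdeg
  let K := FractionRing (MvPolynomial (Rest n d) k ⧸ p)
  let φ : MvPolynomial (Rest n d) k →ₐ[k] K :=
    (IsScalarTower.toAlgHom k (MvPolynomial (Rest n d) k ⧸ p) K).comp (Ideal.Quotient.mkₐ k p)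
  have hφ : ∀ g, φ g = 0 ↔ g ∈ p := by
    intro g
    have h3 : φ g = algebraMap (MvPolynomial (Rest n d) k ⧸ p) K (Ideal.Quotient.mk p g) := rfl
    rw [h3, ← Ideal.Quotient.eq_zero_iff_mem,
      ← map_zero (algebraMap (MvPolynomial (Rest n d) k ⧸ p) K)]
    exact (IsFractionRing.injective (MvPolynomial (Rest n d) k ⧸ p) K).eq_iff
  have hne : ∀ F : Pol n d k, eval c F ≠ 0 → φ (res c F) ≠ 0 := by
    intro F hF h0
    apply hF
    rw [← eval_res]
    exact hN _ ((hφ _).1 h0)
  have hv : φ (res c T1 ^ M) ≠ 0 := by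
    rw [map_pow]
    exact pow_ne_zero _ (hne _ hc1)
  have h3 := transfer (io n d k).toRingHom io_inj φ.toRingHom (fun i => res c (P i))
    (fun i => res c (Q i)) (R * res c T2 ^ M) (res c T1 ^ M) hv (fun i => hne _ (h1 i).2) h2
  have hval : ∀ i, φ (res c (P i)) / φ (res c (Q i)) =
      algebraMap k K (eval c (P i) / eval c (Q i)) := by
    intro i
    have h4 : res c (C (eval c (Q i)) * P i - C (eval c (P i)) * Q i) ∈ p := by
      refine hI _ (Q i) ?_ (h1 i).2 ?_
      · intro A A' hA x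
        have h5 := (h1 i).1 A A' hA x
        simp only [map_sub, map_mul, eval_C]
        linear_combination (eval c (Q i)) * h5
      · simp only [map_sub, map_mul, eval_C]
        ring
    rw [← hφ, map_sub, map_mul, map_mul, map_sub, map_mul, map_mul] at h4
    have h5 : ∀ t : k, φ (res c (C t)) = algebraMap k K t := by
      intro t
      have h6 : res c (C t : Pol n d k) = algebraMap k _ t := (res c).commutes t
      rw [h6, φ.commutes]
    rw [h5, h5] at h4
    rw [map_div₀, div_eq_div_iff (hne _ (h1 i).2)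
      (by rw [Ne, map_eq_zero]; exact (h1 i).2)]
    linear_combination h4
  obtain ⟨t, ht⟩ := const_of_root (K := K) (fun i => eval c (P i) / eval c (Q i))
    (φ (R * res c T2 ^ M) / φ (res c T1 ^ M)) (by
      have h4 : ∑ i : Fin m, algebraMap k K (eval c (P i) / eval c (Q i)) *
          (φ (R * res c T2 ^ M) / φ (res c T1 ^ M)) ^ (i : ℕ) =
          ∑ i : Fin m, φ (res c (P i)) / φ (res c (Q i)) *
          (φ (R * res c T2 ^ M) / φ (res c T1 ^ M)) ^ (i : ℕ) :=
        Finset.sum_congr rfl fun i _ => by rw [hval]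
      rw [h4]
      exact h3)
  refine ⟨t, ?_⟩
  rw [eq_div_iff hv] at ht
  have h6 : φ (C t) = algebraMap k K t := φ.commutes t
  have h7 : φ (C t * res c T1 ^ M) = φ (C t) * φ (res c T1 ^ M) := map_mul φ _ _
  rw [← hφ, map_sub, h7, h6, ht, sub_self]

end

/-- RAD. -/
theorem t_RAD : S_RAD.{u} := by
  intro k _ _ _ n d hn hd c hc hTc ρ
  obtain ⟨b, T1, T2, hb, hSemi, hc1, hc2⟩ := aTT k n d hd c hc hTc
  set N : Ideal (MvPolynomial (Rest n d) k) := RingHom.ker (eval (rest c)) with hNdef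
  have hNp : N.IsPrime := RingHom.ker_isPrime _
  set I : Ideal (MvPolynomial (Rest n d) k) := Ideal.span
    {g | ∃ P Q : Pol n d k, Invt P Q ∧ eval c Q ≠ 0 ∧ eval c P = 0 ∧ g = res c P} with hIdef
  obtain ⟨S, e, hS, hSe⟩ := exists_pow I N (X ρ - C (rest c ρ)) (by
    intro p hp hIp hpN
    have hI : ∀ P Q : Pol n d k, Invt P Q → eval c Q ≠ 0 → eval c P = 0 → res c P ∈ p :=
      fun P Q h1 h2 h3 => hIp (Ideal.subset_span ⟨P, Q, h1, h2, h3, rfl⟩)
    have hN : ∀ g ∈ p, eval (rest c) g = 0 := fun g hg => hpN hg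
    obtain ⟨r1, h1⟩ := modp hd c hc hTc b T1 T2 hSemi hc1 hc2 p hp hI hN 1 2
      (by rw [totalDegree_one]; omega)
    obtain ⟨r2, h2⟩ := modp hd c hc hTc b T1 T2 hSemi hc1 hc2 p hp hI hN (X ρ) 2
      (by rw [totalDegree_X]; omega)
    have e1 := hN _ h1
    have e2 := hN _ h2
    simp only [map_sub, map_mul, map_pow, one_mul, eval_C, eval_X, eval_res] at e1 e2
    have e3 : r2 = rest c ρ * r1 := by
      have h0 : eval c T1 ^ 2 ≠ 0 := pow_ne_zero _ hc1
      apply mul_right_cancel₀ h0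
      linear_combination (rest c ρ) * e1 - e2
    have h3 : (X ρ - C (rest c ρ)) * res c T2 ^ 2 ∈ p := by
      have h4 : (X ρ - C (rest c ρ)) * res c T2 ^ 2 =
          (X ρ * res c T2 ^ 2 - C r2 * res c T1 ^ 2) -
            C (rest c ρ) * (1 * res c T2 ^ 2 - C r1 * res c T1 ^ 2) := by
        rw [e3, map_mul]; ring
      rw [h4]
      exact p.sub_mem h2 (p.mul_mem_left _ h1)
    refine (hp.mem_or_mem h3).resolve_right fun h4 => ?_
    have h5 := hN _ (hp.mem_of_pow_mem _ h4)
    rw [eval_res] at h5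
    exact hc2 h5)
  rw [hIdef, Ideal.span, Submodule.mem_span_set'] at hSe
  obtain ⟨t, f, g, hg⟩ := hSe
  choose P Q h1 h2 h3 h4 using fun j => (g j).2
  refine ⟨e, t, S, P, Q, f, hS, fun j => ⟨h1 j, h2 j, h3 j⟩, ?_⟩
  rw [← hg]
  refine Finset.sum_congr rfl fun j _ => ?_
  rw [h4 j, smul_eq_mul]

end Pool.Agent.D0H81.SM.Rad

namespace Pool.Agent.D0H81.SM

universe u

theorem t_RAD : Pool.Agent.D0H90.SM.S_RAD.{u} := Rad.t_RAD

end Pool.Agent.D0H81.SM
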